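import Pool.Agent.Helper52.SX.Goals
import Pool.Agent.Helper37.CS.PTC
import Pool.Agent.Helper2.CS.PTR

/-!
# SX, packet PLT: the search in polynomial time
-/

set_option autoImplicit false

namespace Pool.Agent.Helper2.SX

open Pool.Agent.Helper81.CC Pool.Agent.Helper78.DT Pool.Agent.Helper51.ZP
open Pool.Agent.Helper65.CS Pool.Agent.Helper52.SX Pool.Agent.Helper2.CS

theorem sz_rstT (s : List (ℕ × Bool)) (z : Tup) : sz (rstT s z) ≤ sz z := by
  obtain ⟨l, t⟩ := z
  unfold rstT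
  have h := sz_map (rst s) (sz_rst s) l
  simp only [sz_pair]
  omega

/-- the size of a state -/
theorem sz_stT (hD : CndStmt) (g : ℕ × Tup × ℕ → ℕ) (b M n N : ℕ) (F : Tup) (k : ℕ) :
    sz (((stepT g b M n N)^[k] ([], F)).1) ≤ 1 + k * (n * (2 * n + 6)) ∧
      sz (((stepT g b M n N)^[k] ([], F)).2) ≤ sz F := by
  induction k with
  | zero => simp
  | succ k ih =>
    rw [Function.iterate_succ_apply']
    set t := (stepT g b M n N)^[k] ([], F) with ht
    obtain ⟨h1, h2⟩ := ih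
    have h5 : (k + 1) * (n * (2 * n + 6)) = k * (n * (2 * n + 6)) + n * (2 * n + 6) := by ring
    unfold stepT
    split
    · next e he =>
      have hm := List.mem_of_find?_eq_some he
      obtain ⟨-, h6, h7, -⟩ := hD b M n t.1
      obtain ⟨h8, h9, -, -⟩ := h7 e hm
      have h10 : ∀ p ∈ e, p.1 < n := fun p hp => h6 _ (h9 p hp)
      have h11 := sz_lits n e h10
      have h12 := Nat.mul_le_mul_right (2 * n + 6) (length_names n e h10 h8)
      have h13 := sz_append e t.1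
      refine ⟨?_, (sz_rstT e t.2).trans h2⟩
      simp only
      omega
    · refine ⟨?_, h2⟩
      omega

theorem pt_stepT (hX : PtxStmt) (hL : Pool.Agent.Helper78.DT.PtlStmt) {α : Type} [ToData α]
    (g : ℕ × Tup × ℕ → ℕ) {B b M n N : α → ℕ} {t : α → List (ℕ × Bool) × Tup}
    (hg : PolyTime g) (hB : PolyTime B) (hb : PolyTime b) (hM : PolyTime M) (hn : PolyTime n)
    (hN : PolyTime N) (ht : PolyTime t) (hbB : ∀ a, 2 ^ b a ≤ B a) :
    PolyTime fun a => stepT g (b a) (M a) (n a) (N a) (t a) := by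
  have hc : PolyTime fun a => cands (b a) (M a) (n a) (t a).1 :=
    Pool.Agent.Helper37.CS.pt_cands hX hL (s := fun a => (t a).1) hB hb hM hn (by fun_prop) hbB
  have hg' : ∀ {β : Type} [ToData β] (u : β → ℕ) (G : β → Tup) (v : β → ℕ),
      PolyTime u → PolyTime G → PolyTime v → PolyTime fun z => g (u z, G z, v z) :=
    fun u G v hu hG hv => PolyTime.comp (g := g) (f := fun z => (u z, G z, v z)) hg (by fun_prop)
  have hr0 : PolyTime fun z : (α × List (ℕ × Bool)) × DList => rst z.1.2 z.2 :=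
    ((hX ((α × List (ℕ × Bool)) × DList)).2.2.1 (fun z => n z.1.1) (fun z => n z.1.1)
      (fun z => z.1.2) (fun z => z.2) (by fun_prop) (by fun_prop) (by fun_prop) (by fun_prop)).1
  have hr1 : PolyTime fun z : α × List (ℕ × Bool) => (t z.1).2.1.map (rst z.2) :=
    PolyTime.list_map (l := fun z : α × List (ℕ × Bool) => (t z.1).2.1)
      (f := fun z F => rst z.2 F) (by fun_prop) hr0
  have hr2 : PolyTime fun z : α × List (ℕ × Bool) => (t z.1).2.2 := by fun_prop
  have hr : PolyTime fun z : α × List (ℕ × Bool) => rstT z.2 (t z.1).2 :=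
    PolyTime.pair hr1 hr2
  have hf : PolyTime fun a => (cands (b a) (M a) (n a) (t a).1).find?
      fun e => decide (g (n a, (t a).2, N a) ≤ g (n a, rstT e (t a).2, N a) + 3) := by
    refine PolyTime.find? (f := fun a e =>
      decide (g (n a, (t a).2, N a) ≤ g (n a, rstT e (t a).2, N a) + 3)) hc ?_
    refine PolyTime.decide_le (hg' _ _ _ (by fun_prop) (by fun_prop) (by fun_prop))
      (PolyTime.add (hg' _ _ _ (by fun_prop) hr (by fun_prop)) (by fun_prop))
  have h1 : PolyTime fun a => ((cands (b a) (M a) (n a) (t a).1).find?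
      fun e => decide (g (n a, (t a).2, N a) ≤ g (n a, rstT e (t a).2, N a) + 3)).elim (t a)
      fun e => (e ++ (t a).1, rstT e (t a).2) := by
    refine PolyTime.option_elim (g := fun a e => (e ++ (t a).1, rstT e (t a).2)) hf ht ?_
    exact PolyTime.pair (PolyTime.append (by fun_prop) (by fun_prop)) hr
  refine PolyTime.congr h1 fun a => ?_
  unfold stepT
  cases (cands (b a) (M a) (n a) (t a).1).find?
      fun e => decide (g (n a, (t a).2, N a) ≤ g (n a, rstT e (t a).2, N a) + 3) <;> rfl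

/-- Packet SX-PLT: the search in polynomial time. -/
theorem plt (hX : PtxStmt) (hD : CndStmt) (hL : Pool.Agent.Helper78.DT.PtlStmt) :
    PltStmt := by
  intro g hg
  have hN : PolyTime (fun z : ℕ × Tup × ℕ => z.2.2) := by fun_prop
  have hlg : PolyTime (fun z : ℕ × Tup × ℕ => lg z.2.2) :=
    (hL (ℕ × Tup × ℕ) _ _ _ hN hN hN).1
  have hlog : PolyTime (fun z : ℕ × Tup × ℕ => Nat.log 2 (lg z.2.2)) :=
    (hL (ℕ × Tup × ℕ) _ _ _ hlg hlg hlg).2.1
  have hbb : PolyTime (fun z : ℕ × Tup × ℕ => bb (lg z.2.2)) := by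
    unfold bb
    fun_prop
  have hB : PolyTime (fun z : ℕ × Tup × ℕ => 4 * lg z.2.2 ^ 2) := by fun_prop
  have hle : ∀ z : ℕ × Tup × ℕ, 2 ^ bb (lg z.2.2) ≤ 4 * lg z.2.2 ^ 2 := fun z =>
    two_pow_bb _ (by unfold lg; omega)
  have hpw : PolyTime (fun z : ℕ × Tup × ℕ => 2 ^ bb (lg z.2.2)) :=
    (hL (ℕ × Tup × ℕ) _ _ _ hB hbb hbb).2.2.2.2 hle
  have hTT : PolyTime (fun z : ℕ × Tup × ℕ => TT (lg z.2.2)) := by
    unfold TT
    fun_prop
  have hMM : PolyTime (fun z : ℕ × Tup × ℕ => MM z.2.2) := by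
    unfold MM
    fun_prop
  have hn : PolyTime (fun z : ℕ × Tup × ℕ => z.1) := by fun_prop
  have hF : PolyTime (fun z : ℕ × Tup × ℕ => z.2.1) := by fun_prop
  have hnil : PolyTime (fun _ : ℕ × Tup × ℕ => ([] : List (ℕ × Bool))) := PolyTime.const _
  have hs0 : PolyTime (fun z : ℕ × Tup × ℕ =>
      (([], z.2.1) : List (ℕ × Bool) × Tup)) := hnil.pair hF
  have hfst : PolyTime (fun p : (ℕ × Tup × ℕ) × (List (ℕ × Bool) × Tup) => p.1) := by fun_prop
  have hstep : PolyTime (fun p : (ℕ × Tup × ℕ) × (List (ℕ × Bool) × Tup) =>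
      (fun (z : ℕ × Tup × ℕ) t => stepT g (bb (lg z.2.2)) (MM z.2.2) z.1 z.2.2 t) p.1 p.2) :=
    pt_stepT hX hL g hg
      (PolyTime.comp hB hfst)
      (PolyTime.comp (g := fun z : ℕ × Tup × ℕ => bb (lg z.2.2)) hbb hfst)
      (PolyTime.comp (g := fun z : ℕ × Tup × ℕ => MM z.2.2) hMM hfst)
      (PolyTime.comp hn hfst) (PolyTime.comp (g := fun z : ℕ × Tup × ℕ => z.2.2) hN hfst) (by fun_prop) fun p => hle p.1
  have hit := PolyTime.iterate_bd (n := fun z : ℕ × Tup × ℕ => TT (lg z.2.2))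
    (s0 := fun z : ℕ × Tup × ℕ => (([], z.2.1) : List (ℕ × Bool) × Tup))
    (step := fun (z : ℕ × Tup × ℕ) t => stepT g (bb (lg z.2.2)) (MM z.2.2) z.1 z.2.2 t)
    hTT hs0 hstep
    (B := fun z : ℕ × Tup × ℕ => 2 + TT (lg z.2.2) * (z.1 * (2 * z.1 + 6)) + sz z.2.1)
    (((PBd.const 2).add ((PBd.nat hTT).mul ((PBd.nat hn).mul
      (((PBd.const 2).mul (PBd.nat hn)).add (PBd.const 6))))).add hF.bd) (by
      intro z k hk
      have h1 := sz_stT hD g (bb (lg z.2.2)) (MM z.2.2) z.1 z.2.2 z.2.1 k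
      have h2 := Nat.mul_le_mul_right (z.1 * (2 * z.1 + 6)) hk
      set t := (stepT g (bb (lg z.2.2)) (MM z.2.2) z.1 z.2.2)^[k] ([], z.2.1)
      obtain ⟨h3, h4⟩ := h1
      change sz t ≤ _
      have h5 : sz t = sz t.1 + sz t.2 + 1 := sz_pair t.1 t.2
      omega)
  have hasg := ((hX (ℕ × Tup × ℕ)).2.1 _ _ hn hit.fst).2
  exact hasg

end Pool.Agent.Helper2.SX
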